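import Mathlib
import Pool.Agent.Q161.Hertz
import Pool.Agent.Q161.Hertz2
import Pool.Agent.Q161.PalPer

set_option autoImplicit false

namespace Pool.Agent.Results.MP_7acacd_co.WilfClassesPalindromes

open Pool.Agent.Q161.Hertz Pool.Agent.Q161.PalPer

/-- The Hertzsprung pattern `σ` occurs in `π` at position `i` with offset `d`: the entries of `π`
in the `k` adjacent positions `i, …, i + k - 1` are `σ(0) + d, …, σ(k-1) + d` (positions and
values are numbered from `0`, which does not change the offset `d`). -/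
def IsOcc {k n : ℕ} (σ : Equiv.Perm (Fin k)) (π : Equiv.Perm (Fin n)) (i : ℕ) (d : ℤ) : Prop :=
  i + k ≤ n ∧ ∀ (j : Fin k) (a : Fin n), (a : ℕ) = i + (j : ℕ) →
    ((π a : ℕ) : ℤ) = ((σ j : ℕ) : ℤ) + d

/-- `π` avoids the Hertzsprung pattern `σ`. -/
def Avoids {k n : ℕ} (σ : Equiv.Perm (Fin k)) (π : Equiv.Perm (Fin n)) : Prop :=
  ∀ (i : ℕ) (d : ℤ), ¬ IsOcc σ π i d

/-- Wilf equivalence of Hertzsprung patterns in `S_k`: equally many avoiders in every `S_n`. -/
def wilf (k : ℕ) : Setoid (Equiv.Perm (Fin k)) where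
  r σ τ := ∀ n : ℕ, Nat.card {π : Equiv.Perm (Fin n) // Avoids σ π} =
    Nat.card {π : Equiv.Perm (Fin n) // Avoids τ π}
  iseqv := ⟨fun _ _ => rfl, fun h n => (h n).symm, fun h h' n => (h n).trans (h' n)⟩

/-- The number `a_k` of Wilf classes. -/
noncomputable def numWilf (k : ℕ) : ℕ := Nat.card (Quotient (wilf k))

/-- The set of lengths of palindromic prefixes of a binary word. -/
def palPrefix (w : List Bool) : Set ℕ :=
  {i | 1 ≤ i ∧ i ≤ w.length ∧ (w.take i).reverse = w.take i}

/-- The number `b_k` of palindromic prefix sets of binary palindromes of length `k`. -/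
noncomputable def numPal (k : ℕ) : ℕ :=
  {P : Set ℕ | ∃ w : List Bool, w.length = k ∧ w.reverse = w ∧ P = palPrefix w}.ncard

/-! ### Wilf classes are the overlap sets -/

lemma has_iff {k n : ℕ} (hk : 1 ≤ k) (τ : Equiv.Perm (Fin k)) (π : Equiv.Perm (Fin n)) :
    ¬ Has k (ex τ) π ↔ Avoids τ π := by
  unfold Avoids Has
  constructor
  · intro h i m hi
    apply h
    obtain ⟨j0, hj0, e0⟩ := ex_surj τ (show 0 < k by omega)
    have hm : 0 ≤ m := by
      have := hi.2 ⟨j0, hj0⟩ ⟨i + j0, by have := hi.1; omega⟩ rfl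
      unfold ex at e0
      rw [dif_pos hj0] at e0
      rw [e0] at this
      push_cast at this
      omega
    refine ⟨i, m.toNat, hi.1, ?_⟩
    intro j hj
    have := hi.2 ⟨j, hj⟩ ⟨i + j, by have := hi.1; omega⟩ rfl
    unfold ex
    rw [dif_pos (by have := hi.1; omega), dif_pos hj]
    omega
  · rintro h ⟨i, m, hi⟩
    apply h i m
    refine ⟨hi.1, ?_⟩
    intro j a ha
    have := hi.2 j j.2
    unfold ex at this
    rw [dif_pos (by have := hi.1; omega), dif_pos j.2] at this
    have ea : a = ⟨i + j, by have := hi.1; omega⟩ := Fin.ext ha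
    rw [ea, this]
    push_cast
    ring

open Classical in
lemma card_eq {k : ℕ} (n : ℕ) (hk : 1 ≤ k) (τ : Equiv.Perm (Fin k)) :
    Nat.card {π : Equiv.Perm (Fin n) // Avoids τ π} =
      (Finset.univ.filter (fun π : Equiv.Perm (Fin n) => ¬ Has k (ex τ) π)).card := by
  rw [Nat.card_eq_fintype_card, Fintype.card_subtype]
  congr 1
  ext π
  rw [Finset.mem_filter, Finset.mem_filter, has_iff hk]

open Classical in
lemma norm {k : ℕ} (hk : 1 ≤ k) {t : ℕ → ℕ} (ht : IsP k t) :
    ∃ t', IsP k t' ∧ NoMinus k t' ∧ ovl k t' = ovl k t ∧ ∀ n : ℕ,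
      (Finset.univ.filter (fun π : Equiv.Perm (Fin n) => ¬ Has k t' π)).card =
        (Finset.univ.filter (fun π : Equiv.Perm (Fin n) => ¬ Has k t π)).card := by
  rcases noMinus_or ht with h | h
  · exact ⟨t, ht, h, rfl, fun _ => rfl⟩
  · exact ⟨compl k t, compl_isP ht, h, ovl_compl ht, fun _ => card_compl hk ht⟩

lemma wilf_iff {k : ℕ} (hk : 1 ≤ k) (σ τ : Equiv.Perm (Fin k)) :
    (∀ n : ℕ, Nat.card {π : Equiv.Perm (Fin n) // Avoids σ π} =
      Nat.card {π : Equiv.Perm (Fin n) // Avoids τ π}) ↔ ovl k (ex σ) = ovl k (ex τ) := by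
  classical
  obtain ⟨s, hs, hsm, hso, hsc⟩ := norm hk (isP_ex σ)
  obtain ⟨t, ht, htm, hto, htc⟩ := norm hk (isP_ex τ)
  rw [← hso, ← hto]
  have e : ∀ n, (Nat.card {π : Equiv.Perm (Fin n) // Avoids σ π} =
      Nat.card {π : Equiv.Perm (Fin n) // Avoids τ π} ↔
      (Finset.univ.filter (fun π : Equiv.Perm (Fin n) => ¬ Has k s π)).card =
        (Finset.univ.filter (fun π : Equiv.Perm (Fin n) => ¬ Has k t π)).card) := by
    intro n
    rw [card_eq n hk, card_eq n hk, hsc, htc]
  constructor
  · intro h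
    rw [ovl_of_noMinus hs hsm, ovl_of_noMinus ht htm]
    by_contra hne
    have hex : ∃ g, 1 ≤ g ∧ g < k ∧ ¬ (Plus k s g ↔ Plus k t g) := by
      by_contra hcon
      push Not at hcon
      apply hne
      ext g
      constructor
      · rintro ⟨h1, h2, h3⟩
        exact ⟨h1, h2, (hcon g h1 h2).1 h3⟩
      · rintro ⟨h1, h2, h3⟩
        exact ⟨h1, h2, (hcon g h1 h2).2 h3⟩
    obtain ⟨h1, h2, h3⟩ := Nat.find_spec hex
    have hmin : ∀ g, g < Nat.find hex → (Plus k s g ↔ Plus k t g) := by
      intro g hg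
      rcases Nat.eq_zero_or_pos g with rfl | hg0
      · exact ⟨fun _ => plus_zero k t, fun _ => plus_zero k s⟩
      · by_contra hcon
        exact Nat.find_min hex hg ⟨hg0, by omega, hcon⟩
    set g₀ := Nat.find hex
    have h4 := (e (k + g₀)).1 (h (k + g₀))
    by_cases hsg : Plus k s g₀
    · have htg : ¬ Plus k t g₀ := fun hh => h3 ⟨fun _ => hh, fun _ => hsg⟩
      have := count_lt hs ht htm h1 h2 hsg htg (fun g hg => (hmin g hg).2)
      omega
    · have htg : Plus k t g₀ := by
        by_contra hh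
        exact h3 ⟨fun h => absurd h hsg, fun h => absurd h hh⟩
      have := count_lt ht hs hsm h1 h2 htg hsg (fun g hg => (hmin g hg).1)
      omega
  · intro h n
    rw [ovl_of_noMinus hs hsm, ovl_of_noMinus ht htm] at h
    have hst : ∀ g, g < k → (Plus k s g ↔ Plus k t g) := by
      intro g hg
      rcases Nat.eq_zero_or_pos g with rfl | hg0
      · exact ⟨fun _ => plus_zero k t, fun _ => plus_zero k s⟩
      · constructor
        · intro hh
          have : g ∈ {g | 1 ≤ g ∧ g < k ∧ Plus k s g} := ⟨hg0, hg, hh⟩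
          rw [h] at this
          exact this.2.2
        · intro hh
          have : g ∈ {g | 1 ≤ g ∧ g < k ∧ Plus k t g} := ⟨hg0, hg, hh⟩
          rw [← h] at this
          exact this.2.2
    rw [e n]
    exact le_antisymm
      (count_le hk ht hs hsm (fun g h1 _ h2 => (hst g h1).1 h2))
      (count_le hk hs ht htm (fun g h1 _ h2 => (hst g h1).2 h2))

/-! ### palindromic prefixes and periods -/

/-- letters of a list as a function -/
def fn (w : List Bool) (j : ℕ) : Bool := w.getD j false

lemma fn_eq {w : List Bool} {j : ℕ} (h : j < w.length) : fn w j = w[j] := by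
  unfold fn; exact List.getD_eq_getElem _ _ h

lemma take_pal_iff {w : List Bool} {i : ℕ} (hi : i ≤ w.length) :
    (w.take i).reverse = w.take i ↔ ∀ j, j < i → fn w (i - 1 - j) = fn w j := by
  have hl : (w.take i).length = i := by rw [List.length_take]; omega
  constructor
  · intro h j hj
    have e : (w.take i).reverse[j]? = (w.take i)[j]? := congrArg (fun l : List Bool => l[j]?) h
    rw [List.getElem?_eq_getElem (by rw [List.length_reverse]; omega),
      List.getElem?_eq_getElem (by omega)] at e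
    have e' := Option.some.inj e
    rw [List.getElem_reverse, List.getElem_take, List.getElem_take] at e'
    rw [fn_eq (by omega), fn_eq (by omega), ← e']
    congr 1
    omega
  · intro h
    apply List.ext_getElem
    · rw [List.length_reverse]
    · intro j h1 h2
      rw [List.getElem_reverse, List.getElem_take, List.getElem_take]
      have := h j (by omega)
      rw [fn_eq (by omega), fn_eq (by omega)] at this
      rw [← this]
      congr 1
      omega

lemma pal_iff {w : List Bool} : w.reverse = w ↔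
    ∀ j, j < w.length → fn w (w.length - 1 - j) = fn w j := by
  have := take_pal_iff (w := w) (i := w.length) le_rfl
  rwa [List.take_length] at this

lemma mem_palPrefix {w : List Bool} (hw : w.reverse = w) {i : ℕ} :
    i ∈ palPrefix w ↔ 1 ≤ i ∧ i ≤ w.length ∧ Per (fn w) w.length (w.length - i) := by
  unfold palPrefix
  rw [Set.mem_ofPred_eq]
  constructor
  · rintro ⟨h1, h2, h3⟩
    refine ⟨h1, h2, ?_⟩
    rw [take_pal_iff h2] at h3
    rw [pal_iff] at hw
    intro j hj
    have e1 := h3 j (by omega)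
    have e2 := hw (i - 1 - j) (by omega)
    rw [show w.length - 1 - (i - 1 - j) = j + (w.length - i) by omega] at e2
    rw [e2, e1]
  · rintro ⟨h1, h2, h3⟩
    refine ⟨h1, h2, ?_⟩
    rw [take_pal_iff h2]
    rw [pal_iff] at hw
    intro j hj
    have e1 := h3 j (by omega)
    have e2 := hw (i - 1 - j) (by omega)
    rw [show w.length - 1 - (i - 1 - j) = j + (w.length - i) by omega] at e2
    rw [← e2, e1]

/-- the palindromic prefix set belonging to an overlap set -/
def Q (k : ℕ) (G : Set ℕ) : Set ℕ :=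
  {i | 1 ≤ i ∧ i ≤ k + 1 ∧ (i = k + 1 ∨ i = 1 ∨ k + 1 - i ∈ G)}

/-- the proper periods less than `k` -/
def pers (k : ℕ) (f : ℕ → Bool) : Set ℕ := {g | 1 ≤ g ∧ g < k ∧ Per f (k + 1) g}

lemma palPrefix_eq {k : ℕ} {w : List Bool} (hl : w.length = k + 1)
    (hw : w.reverse = w) : palPrefix w = Q k (pers k (fn w)) := by
  ext i
  rw [mem_palPrefix hw, hl]
  unfold Q pers
  rw [Set.mem_ofPred_eq, Set.mem_ofPred_eq]
  constructor
  · rintro ⟨h1, h2, h3⟩
    refine ⟨h1, h2, ?_⟩
    by_cases c1 : i = k + 1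
    · exact Or.inl c1
    · by_cases c2 : i = 1
      · exact Or.inr (Or.inl c2)
      · exact Or.inr (Or.inr ⟨by omega, by omega, h3⟩)
  · rintro ⟨h1, h2, h3 | h3 | h3⟩
    · refine ⟨h1, h2, ?_⟩
      subst h3
      rw [Nat.sub_self]
      intro j _
      rfl
    · refine ⟨h1, h2, ?_⟩
      subst h3
      intro j hj
      have : j = 0 := by omega
      subst this
      rw [pal_iff] at hw
      have := hw 0 (by omega)
      rw [hl] at this
      simpa using this
    · exact ⟨h1, h2, h3.2.2⟩

lemma Q_inj {k : ℕ} {G G' : Set ℕ} (h : ∀ g ∈ G, 1 ≤ g ∧ g < k)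
    (h' : ∀ g ∈ G', 1 ≤ g ∧ g < k) (hQ : Q k G = Q k G') : G = G' := by
  have key : ∀ G G' : Set ℕ, (∀ g ∈ G, 1 ≤ g ∧ g < k) → Q k G = Q k G' → G ⊆ G' := by
    intro G G' h hQ g hg
    have hb := h g hg
    have : k + 1 - g ∈ Q k G := by
      refine ⟨by omega, by omega, Or.inr (Or.inr ?_)⟩
      rwa [show k + 1 - (k + 1 - g) = g by omega]
    rw [hQ] at this
    obtain ⟨_, _, h3 | h3 | h3⟩ := this
    · omega
    · omega
    · rwa [show k + 1 - (k + 1 - g) = g by omega] at h3
  exact Set.Subset.antisymm (key G G' h hQ) (key G' G h' hQ.symm)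

/-- the overlap set of a permutation -/
def ovlP (k : ℕ) (σ : Equiv.Perm (Fin k)) : Set ℕ := ovl k (ex σ)

lemma ovl_congr {k : ℕ} {t t' : ℕ → ℕ} (h : ∀ j, j < k → t j = t' j) : ovl k t = ovl k t' := by
  ext g
  unfold ovl
  rw [Set.mem_ofPred_eq, Set.mem_ofPred_eq, plus_congr h,
    plus_congr (t := Pool.Agent.Q161.Hertz.compl k t) (t' := Pool.Agent.Q161.Hertz.compl k t')
      (fun j hj => by unfold Pool.Agent.Q161.Hertz.compl; rw [h j hj])]

/-- the overlap sets are the period sets of binary palindromes -/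
lemma range_eq {k : ℕ} (hk : 3 ≤ k) :
    {P : Set ℕ | ∃ w : List Bool, w.length = k + 1 ∧ w.reverse = w ∧ P = palPrefix w} =
      Q k '' Set.range (ovlP k) := by
  ext P
  rw [Set.mem_ofPred_eq]
  constructor
  · rintro ⟨w, hl, hw, rfl⟩
    have h0 : fn w k = fn w 0 := by
      rw [pal_iff] at hw
      have := hw 0 (by omega)
      rw [hl] at this
      simpa using this
    refine ⟨pers k (fn w), ⟨mkPerm (blk (fn w)) (blk_isP h0), ?_⟩, (palPrefix_eq hl hw).symm⟩
    unfold ovlP
    rw [ovl_congr (t := ex (mkPerm (blk (fn w)) (blk_isP h0))) (t' := blk (fn w))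
      (fun j hj => ex_mkPerm _ _ hj), ovl_of_noMinus (blk_isP h0) (blk_noMinus hk)]
    ext g
    unfold pers
    rw [Set.mem_ofPred_eq, Set.mem_ofPred_eq]
    constructor
    · rintro ⟨h1, h2, h3⟩
      exact ⟨h1, h2, (blk_plus h0 h1 h2).1 h3⟩
    · rintro ⟨h1, h2, h3⟩
      exact ⟨h1, h2, (blk_plus h0 h1 h2).2 h3⟩
  · rintro ⟨_, ⟨σ, rfl⟩, rfl⟩
    -- normalise the sign
    obtain ⟨s, hs, hsm, hso, -⟩ := norm (show 1 ≤ k by omega) (isP_ex σ)
    obtain ⟨v, hv1, hv2⟩ := pal_exists (code s) (k + 1) (by omega) (by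
      rw [show k + 1 - 1 = k by omega, code_cut (cut_top hs), code_cut (cut_zero s)])
    set w : List Bool := List.ofFn (fun i : Fin (k + 1) => v i) with hwdef
    have hl : w.length = k + 1 := by rw [hwdef, List.length_ofFn]
    have hfn : ∀ j, j < k + 1 → fn w j = v j := by
      intro j hj
      rw [fn_eq (by omega)]
      simp only [hwdef]
      rw [List.getElem_ofFn]
    have hw : w.reverse = w := by
      rw [pal_iff, hl]
      intro j hj
      rw [hfn _ (by omega), hfn _ hj]
      exact hv1 j hj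
    refine ⟨w, hl, hw, ?_⟩
    rw [palPrefix_eq hl hw]
    congr 1
    unfold ovlP
    rw [← hso, ovl_of_noMinus hs hsm]
    ext g
    unfold pers
    rw [Set.mem_ofPred_eq, Set.mem_ofPred_eq]
    have hper : Per (fn w) (k + 1) g ↔ Per v (k + 1) g := by
      constructor
      · intro h j hj
        rw [← hfn _ hj, ← hfn j (by omega)]
        exact h j hj
      · intro h j hj
        rw [hfn _ hj, hfn j (by omega)]
        exact h j hj
    constructor
    · rintro ⟨h1, h2, h3⟩
      refine ⟨h1, h2, ?_⟩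
      rw [hper, hv2 g h1 (by omega), code_per hs h1 h2]
      exact h3
    · rintro ⟨h1, h2, h3⟩
      refine ⟨h1, h2, ?_⟩
      rw [hper, hv2 g h1 (by omega), code_per hs h1 h2] at h3
      exact h3

/-- **Wilf classes of Hertzsprung patterns and palindromic prefixes.** For every `k ≥ 3` the number
of Wilf classes of Hertzsprung patterns in `S_k` equals the number of palindromic prefix sets of
binary palindromes of length `k + 1`. -/
theorem result (k : ℕ) (hk : 3 ≤ k) : numWilf k = numPal (k + 1) := by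
  have hker : wilf k = Setoid.ker (ovlP k) := by
    ext σ τ
    rw [Setoid.ker_def]
    exact wilf_iff (by omega) σ τ
  unfold numWilf numPal
  rw [hker, range_eq hk, Nat.card_congr (Setoid.quotientKerEquivRange (ovlP k))]
  rw [Set.InjOn.ncard_image]
  · rfl
  · rintro _ ⟨σ, rfl⟩ _ ⟨τ, rfl⟩ h
    exact Q_inj (fun g hg => ⟨hg.1, hg.2.1⟩) (fun g hg => ⟨hg.1, hg.2.1⟩) h

end Pool.Agent.Results.MP_7acacd_co.WilfClassesPalindromes
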